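import Pool.Agent.helper68.SF.SpecW

/-!
# Project SF (MP_d52931_gt): module sw:PJ, the jumps of `ψ`
-/

set_option autoImplicit false

namespace SF

theorem PJ_sign_pos {x : ℝ} (h : 0 < x) : Real.sign x = 1 := Real.sign_of_pos h

theorem PJ_sign_neg {x : ℝ} (h : x < 0) : Real.sign x = -1 := Real.sign_of_neg h

theorem PJ_sign_bd (x : ℝ) : -1 ≤ Real.sign x ∧ Real.sign x ≤ 1 := by
  rcases lt_trichotomy x 0 with h | h | h
  · rw [Real.sign_of_neg h]
    norm_num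
  · rw [h, Real.sign_zero]
    norm_num
  · rw [Real.sign_of_pos h]
    norm_num

theorem PJ_sign_mono {x y : ℝ} (h : x ≤ y) : Real.sign x ≤ Real.sign y := by
  rcases lt_trichotomy x 0 with h1 | h1 | h1
  · rw [Real.sign_of_neg h1]
    exact (PJ_sign_bd y).1
  · rcases lt_trichotomy y 0 with h2 | h2 | h2
    · linarith
    · rw [h1, h2]
    · rw [h1, Real.sign_zero, Real.sign_of_pos h2]
      norm_num
  · rw [Real.sign_of_pos h1, Real.sign_of_pos (h1.trans_le h)]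

theorem PJ_odd (x : ℝ) : psi (-x) = -psi x := by
  unfold psi c5
  by_cases h : Int.fract x = 0
  · have h' : Int.fract (-x) = 0 := Int.fract_neg_eq_zero.2 h
    rw [h, h']
    have e1 : Real.sign ((0 : ℝ) - 1 / 5) = -1 := PJ_sign_neg (by norm_num)
    have e2 : Real.sign ((0 : ℝ) - 2 / 5) = -1 := PJ_sign_neg (by norm_num)
    have e3 : Real.sign ((0 : ℝ) - 3 / 5) = -1 := PJ_sign_neg (by norm_num)
    have e4 : Real.sign ((0 : ℝ) - 4 / 5) = -1 := PJ_sign_neg (by norm_num)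
    simp only [e1, e2, e3, e4]
    norm_num
  · have h' : Int.fract (-x) = 1 - Int.fract x := Int.fract_neg h
    rw [h']
    have key : ∀ a b : ℝ, a + b = 1 → Real.sign (1 - Int.fract x - a) =
        -Real.sign (Int.fract x - b) := by
      intro a b hab
      rw [← Real.sign_neg]
      congr 1
      linarith
    simp only [key (1 / 5) (4 / 5) (by norm_num), key (2 / 5) (3 / 5) (by norm_num),
      key (3 / 5) (2 / 5) (by norm_num), key (4 / 5) (1 / 5) (by norm_num)]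
    ring

theorem PJ_per (x : ℝ) (n : ℤ) : psi (x + n) = psi x := by
  unfold psi
  rw [Int.fract_add_intCast]

theorem PJ_bd (x : ℝ) : |psi x| ≤ 1 := by
  unfold psi c5
  have h1 : Real.sign (Int.fract x - 2 / 5) ≤ Real.sign (Int.fract x - 1 / 5) :=
    PJ_sign_mono (by linarith)
  have h2 : Real.sign (Int.fract x - 4 / 5) ≤ Real.sign (Int.fract x - 3 / 5) :=
    PJ_sign_mono (by linarith)
  have b1 := PJ_sign_bd (Int.fract x - 1 / 5)
  have b2 := PJ_sign_bd (Int.fract x - 2 / 5)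
  have b3 := PJ_sign_bd (Int.fract x - 3 / 5)
  have b4 := PJ_sign_bd (Int.fract x - 4 / 5)
  rw [abs_le]
  constructor <;> linarith [b1.1, b1.2, b2.1, b2.2, b3.1, b3.2, b4.1, b4.2]

theorem PJ_chi (k : ℤ) : chi (5 * k + 0) = 0 ∧ chi (5 * k + 1) = 1 ∧ chi (5 * k + 2) = -1 ∧
    chi (5 * k + 3) = -1 ∧ chi (5 * k + 4) = 1 := by
  have e0 : (5 * k + 0) % 5 = 0 := by omega
  have e1 : (5 * k + 1) % 5 = 1 := by omega
  have e2 : (5 * k + 2) % 5 = 2 := by omega
  have e3 : (5 * k + 3) % 5 = 3 := by omega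
  have e4 : (5 * k + 4) % 5 = 4 := by omega
  unfold chi
  rw [e0, e1, e2, e3, e4]
  norm_num

/-- one block -/
theorem PJ_block (F : ℤ → ℝ) (k : ℤ) :
    ∑ r ∈ Finset.range 5, chi (5 * k + (r : ℤ)) * F (5 * k + (r : ℤ)) =
      F (5 * k + 1) - F (5 * k + 2) - F (5 * k + 3) + F (5 * k + 4) := by
  obtain ⟨h0, h1, h2, h3, h4⟩ := PJ_chi k
  simp only [Finset.sum_range_succ, Finset.sum_range_zero, Nat.cast_zero, Nat.cast_one,
    Nat.cast_ofNat, h0, h1, h2, h3, h4]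
  ring

theorem PJ_rep (x : ℝ) (M : ℤ) (h1 : -M ≤ ⌊x⌋) (h2 : ⌊x⌋ < M) :
    psi x = ∑ k ∈ Finset.Ico (-M) M, ∑ r ∈ Finset.range 5,
      chi (5 * k + (r : ℤ)) * (1 / 2 * Real.sign (x - ((5 * k + (r : ℤ) : ℤ) : ℝ) / 5)) := by
  have hb := fun k => PJ_block (fun m : ℤ => 1 / 2 * Real.sign (x - ((m : ℤ) : ℝ) / 5)) k
  rw [Finset.sum_congr rfl fun k _ => hb k]
  rw [Finset.sum_eq_single ⌊x⌋]
  · unfold psi c5
    have e : ∀ a : ℤ, x - ((5 * ⌊x⌋ + a : ℤ) : ℝ) / 5 = Int.fract x - (a : ℝ) / 5 := by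
      intro a
      push_cast
      rw [← Int.self_sub_floor x]
      ring
    rw [e, e, e, e]
    push_cast
    ring
  · intro k _ hk
    rcases lt_or_gt_of_ne hk with h | h
    · have h3 : (k : ℝ) + 1 ≤ x := by
        have : ((k + 1 : ℤ) : ℝ) ≤ (⌊x⌋ : ℝ) := by exact_mod_cast h
        push_cast at this
        exact this.trans (Int.floor_le x)
      have e : ∀ a : ℤ, a < 5 → Real.sign (x - ((5 * k + a : ℤ) : ℝ) / 5) = 1 := by
        intro a ha
        apply PJ_sign_pos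
        have : (a : ℝ) < 5 := by exact_mod_cast ha
        push_cast
        linarith
      rw [e 1 (by norm_num), e 2 (by norm_num), e 3 (by norm_num), e 4 (by norm_num)]
      ring
    · have h3 : x < (k : ℝ) := by
        have h4 := Int.lt_floor_add_one x
        have : ((⌊x⌋ + 1 : ℤ) : ℝ) ≤ (k : ℝ) := by exact_mod_cast h
        push_cast at this
        linarith
      have e : ∀ a : ℤ, 0 < a → Real.sign (x - ((5 * k + a : ℤ) : ℝ) / 5) = -1 := by
        intro a ha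
        apply PJ_sign_neg
        have : (0 : ℝ) < a := by exact_mod_cast ha
        push_cast
        linarith
      rw [e 1 (by norm_num), e 2 (by norm_num), e 3 (by norm_num), e 4 (by norm_num)]
      ring
  · intro h
    exact absurd (Finset.mem_Ico.2 ⟨h1, h2⟩) h

theorem PJ_lo (x : ℝ) (M m : ℤ) (h1 : -M ≤ ⌊x⌋) (hm : m < -(5 * M)) :
    Real.sign (x - m / 5) = 1 := by
  apply PJ_sign_pos
  have h3 : ((-M : ℤ) : ℝ) ≤ (⌊x⌋ : ℝ) := by exact_mod_cast h1
  have h4 := Int.floor_le x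
  have h5 : (m : ℝ) < ((-(5 * M) : ℤ) : ℝ) := by exact_mod_cast hm
  push_cast at h3 h5
  linarith

theorem PJ_hi (x : ℝ) (M m : ℤ) (h2 : ⌊x⌋ < M) (hm : 5 * M ≤ m) :
    Real.sign (x - m / 5) = -1 := by
  apply PJ_sign_neg
  have h3 : ((⌊x⌋ + 1 : ℤ) : ℝ) ≤ (M : ℝ) := by exact_mod_cast h2
  have h4 := Int.lt_floor_add_one x
  have h5 : ((5 * M : ℤ) : ℝ) ≤ (m : ℝ) := by exact_mod_cast hm
  push_cast at h3 h5
  linarith

theorem PJ : PJ_stmt := by
  refine ⟨PJ_odd, PJ_per, PJ_bd, fun x0 x1 => ?_⟩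
  obtain ⟨M, h1, h2, h3, h4⟩ : ∃ M : ℤ, -M ≤ ⌊x0⌋ ∧ ⌊x0⌋ < M ∧ -M ≤ ⌊x1⌋ ∧ ⌊x1⌋ < M := by
    refine ⟨|⌊x0⌋| + |⌊x1⌋| + 1, ?_, ?_, ?_, ?_⟩
    · linarith [neg_abs_le ⌊x0⌋, abs_nonneg ⌊x1⌋]
    · linarith [le_abs_self ⌊x0⌋, abs_nonneg ⌊x1⌋]
    · linarith [neg_abs_le ⌊x1⌋, abs_nonneg ⌊x0⌋]
    · linarith [le_abs_self ⌊x1⌋, abs_nonneg ⌊x0⌋]
  have hout : ∀ m : ℤ, Real.sign (x1 - m / 5) ≠ Real.sign (x0 - m / 5) →
      -(5 * M) ≤ m ∧ m < 5 * M := by
    intro m hm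
    constructor
    · by_contra h
      push Not at h
      exact hm (by rw [PJ_lo x1 M m h3 h, PJ_lo x0 M m h1 h])
    · by_contra h
      push Not at h
      exact hm (by rw [PJ_hi x1 M m h4 h, PJ_hi x0 M m h2 h])
  constructor
  · apply (Set.finite_Icc (-(5 * M)) (5 * M)).subset
    intro m hm
    exact ⟨(hout m hm).1, (hout m hm).2.le⟩
  · let g : ℤ × ℕ → ℤ := fun p => 5 * p.1 + (p.2 : ℤ)
    have hinj : Set.InjOn g ↑(Finset.Ico (-M) M ×ˢ Finset.range 5) := by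
      rintro ⟨k, r⟩ hk ⟨k', r'⟩ hk' h
      rw [Finset.mem_coe, Finset.mem_product, Finset.mem_range] at hk hk'
      have h5 : 5 * k + (r : ℤ) = 5 * k' + (r' : ℤ) := h
      have h6 : r < 5 := hk.2
      have h7 : r' < 5 := hk'.2
      have h8 : k = k' := by omega
      have h9 : r = r' := by omega
      rw [h8, h9]
    rw [finsum_eq_sum_of_support_subset (s := (Finset.Ico (-M) M ×ˢ Finset.range 5).image g),
      Finset.sum_image hinj, Finset.sum_product, PJ_rep x0 M h1 h2, PJ_rep x1 M h3 h4,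
      ← Finset.sum_sub_distrib]
    · refine Finset.sum_congr rfl fun k _ => ?_
      rw [← Finset.sum_sub_distrib]
      refine Finset.sum_congr rfl fun r _ => ?_
      show _ = chi (5 * k + (r : ℤ)) * (1 / 2 * (Real.sign (x1 - ((5 * k + (r : ℤ) : ℤ) : ℝ) / 5) -
        Real.sign (x0 - ((5 * k + (r : ℤ) : ℤ) : ℝ) / 5)))
      ring
    · intro m hm
      rw [Function.mem_support] at hm
      have h5 : Real.sign (x1 - m / 5) ≠ Real.sign (x0 - m / 5) := by
        intro h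
        apply hm
        rw [h, sub_self, mul_zero, mul_zero]
      obtain ⟨h6, h7⟩ := hout m h5
      rw [Finset.mem_coe, Finset.mem_image]
      refine ⟨(m / 5, (m % 5).toNat), ?_, ?_⟩
      · rw [Finset.mem_product, Finset.mem_Ico, Finset.mem_range]
        show (-M ≤ m / 5 ∧ m / 5 < M) ∧ (m % 5).toNat < 5
        omega
      · show 5 * (m / 5) + (((m % 5).toNat : ℕ) : ℤ) = m
        omega

end SF
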